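import Mathlib
import Pool.Agent.Q217.LM.GTG

/-!
# Complete, locally GTG and locally minimal abelian groups are almost minimal
-/

set_option autoImplicit false

namespace Pool.Agent.Results.MP_e45129_gt.AlmostMinimal

open Q217.LM Q182

/-- Every complete Hausdorff abelian topological group that is locally GTG and locally minimal is
almost minimal; indeed it has a compact subgroup `N` such that `G ⧸ N` is UFSS. -/
theorem result :
    ∀ (G : Type) [AddCommGroup G] [UniformSpace G] [IsUniformAddGroup G] [T2Space G]
      [CompleteSpace G], LocallyMinimal G → LocallyGTG G →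
        IsAlmostMinimal G ∧ ∃ N : AddSubgroup G, IsCompact (N : Set G) ∧ IsUFSS (G ⧸ N) := by
  intro G _ _ _ _ _ hG hGTG
  exact almostMinimal hG hGTG

end Pool.Agent.Results.MP_e45129_gt.AlmostMinimal
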